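import Pool.Agent.H301X.BG.Assemble
import Pool.Agent.H471R3.BGMontel
import Pool.Agent.H679R3.BGTaskCompact
import Pool.Agent.H138R3.BG.Avg
import Pool.Agent.H948R3.BG_TaskNeg
import Pool.Agent.H714R3.BG.TaskInj
import Pool.Agent.H158I.BGMV
import Pool.Agent.H991R3.BGBallCmp
import Pool.Agent.H174R3.BG.Strip
import Pool.Agent.H474R3.BG.TaskDyadic
import Pool.Agent.H510R3.BG.Tilt
import Pool.Agent.H220R3.BGTaskMid

/-!
# Inner tangent balls and compactness of the restriction of Bergman functions

Let `Ω₁ ⊆ ℂⁿ` be open with `C^∞` boundary near `p`, and let `Ω₂ ⊆ Ω₁` be a Euclidean ball with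
`bΩ₁ ∩ bΩ₂ = {p}`.  If the restriction `A²(Ω₁) → A²(Ω₂)` is not compact, then `Ω₁` is strictly
pseudoconvex at `p`.  This is the positive answer to Q2 of MP_46c13c_an (where `Ω₁` is moreover
bounded and pseudoconvex).

The definitions `IsLocalDefiningFunction`, `MemBergman`, `RestrictionIsCompact`,
`IsSmoothBoundedPseudoconvexDomain` are those of the file `UnequalTypes` of this folder;
`eball` (the open Euclidean ball) and `LeviAt` are in `Pool.Agent.H301X.BG.Stmts`.

## Idea of the proof

Suppose `v` is a complex tangent vector at `p` on which the Levi form of `Ω₁` is `≤ 0`.  Through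
each point `q` near `p`, at depth `t = - r(q)`, runs a holomorphic disc of radius `M √t` in the
direction of `v`, with a tilt depending on `q`, on which `r` stays comparable to `- t`.  Since
the Levi form of the ball is positive on `v` and the ball lies in `Ω₁`, the part of the disc in the
ball is contained in a strip of width `O(√t)`.  Averaging `|f|²` over the discs shows that the mass
of `f` on the part of the ball near `p` is at most `O(1/M)` times its mass on `Ω₁`; hence the
restriction is compact.
-/

set_option autoImplicit false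

open MeasureTheory Topology Filter Set Metric

namespace Pool.Agent.Results.MP_46c13c_an.TangentBall

open Pool.Agent.Results.MP_46c13c_an.UnequalTypes Pool.Agent.H301X.BG

/-- `p` is a strictly pseudoconvex boundary point of `Ω`: the boundary of `Ω` is `C^∞` near `p`,
and for every `C^∞` local defining function `r` of `Ω` near `p` the Levi form of `r` at `p` is
positive definite on the complex tangent space at `p`.  (`LeviAt r p v` is four times the value
`∑ r_{j k̄}(p) v_j v̄_k` of the Levi form; `v` is a complex tangent vector iff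
`dr(p) v = dr(p) (i v) = 0`.) -/
def IsStrictlyPseudoconvexAt {n : ℕ} (Ω : Set (Fin n → ℂ)) (p : Fin n → ℂ) : Prop :=
  (∃ r, IsLocalDefiningFunction Ω p r) ∧
    ∀ r, IsLocalDefiningFunction Ω p r → ∀ v : Fin n → ℂ, v ≠ 0 →
      fderiv ℝ r p v = 0 → fderiv ℝ r p (Complex.I • v) = 0 → 0 < LeviAt r p v

/-- Let `Ω₁ ⊆ ℂⁿ` be open, with `C^∞` boundary near `p`, let the Euclidean ball
`eball c ρ` be contained in `Ω₁`, with `bΩ₁ ∩ b(eball c ρ) = {p}`.  If the restriction operator
`A²(Ω₁) → A²(eball c ρ)` is not compact, then `Ω₁` is strictly pseudoconvex at `p`. -/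
theorem result {n : ℕ} (Ω₁ : Set (Fin n → ℂ)) (c : Fin n → ℂ) (ρ : ℝ) (p : Fin n → ℂ)
    (hopen : IsOpen Ω₁) (hsm : ∃ r, IsLocalDefiningFunction Ω₁ p r)
    (hsub : eball c ρ ⊆ Ω₁) (hp : frontier Ω₁ ∩ frontier (eball c ρ) = {p})
    (hnc : ¬ RestrictionIsCompact Ω₁ (eball c ρ)) : IsStrictlyPseudoconvexAt Ω₁ p := by
  refine ⟨hsm, fun r hr v hv hv1 hv2 => ?_⟩
  by_contra hL
  exact hnc (compact_of Pool.Agent.H510R3.BG.taskTilt taskInj Pool.Agent.H158I.BGMV.taskMV taskAvg
    Strip174.taskStrip taskBallCmp Pool.Agent.H220R3.BGMid.taskMid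
    Pool.Agent.H948R3.BG.taskNeg Dyadic474.taskDyadic
    taskMontel Pool.Agent.H679R3.BG.taskCompact
    Ω₁ c ρ p hopen hsub hp r hr v hv hv1 hv2 (not_lt.1 hL))

end Pool.Agent.Results.MP_46c13c_an.TangentBall
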